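import Pool.Agent.J4H63.KS.Stm

set_option autoImplicit false

/-! # Project KS: soundness (SNDK), sizes (CRDK), bounded degrees (DEGK) -/

namespace Pool.Agent.J4H94.KS

open Finset Pool.Agent.J4H64.SS Pool.Agent.J4H95.SP Pool.Agent.J4H63.KS

section

variable {V : Type} [DecidableEq V]

theorem re_sub {r : ℕ} {b : ℕ → ℕ} {A : ℕ → Fin 3 → Finset V} {H : Finset V → Prop} :
    ∀ (j : ℕ) (e : Finset V), Re r b A H j e → H e
  | 0, _, h => h
  | j + 1, e, h => re_sub j e h.1

/-- the valid sets are smaller than the edges -/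
theorem vd_card {r t b : ℕ} {T : Finset V} {H : Finset V → Prop} {s : Finset V}
    (hH : ∀ e, H e → e.card = r) (h : Vd r t b T H s) : s.card < r := by
  rcases h with ⟨i, hi, _, τ, _, hτ, hd, hs⟩ | ⟨_, i, _, _, h, _⟩
  · have h1 := hH _ hs
    rw [card_union_of_disjoint hd] at h1
    omega
  · omega

/-- one stage: an edge survives or contains a valid set -/
theorem nx_or {r t b : ℕ} {T Y X : Finset V} {H : Finset V → Prop} {e : Finset V} (hr : 2 ≤ r)
    (hH : ∀ e, H e → e.card = r) (he : H e) :
    Nx r t b T Y X H e ∨ ∃ s ⊆ e, s.card < r ∧ Ou r t b T Y X H s := by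
  by_cases h1 : ∀ s ⊆ e, ¬ Vd r t b T H s
  · by_cases h2 : ∀ v ∈ e, v ∉ Y ∧ v ∉ X
    · exact Or.inl ⟨he, h1, h2⟩
    · right
      push Not at h2
      obtain ⟨v, hv, h2⟩ := h2
      by_cases hY : v ∈ Y
      · exact ⟨{v}, singleton_subset_iff.2 hv, by rw [card_singleton]; omega,
          Or.inr (Or.inl ⟨v, hY, rfl⟩)⟩
      · refine ⟨e.erase v, erase_subset _ _, ?_, Or.inr (Or.inr ⟨v, h2 hY, notMem_erase _ _, ?_⟩)⟩
        · rw [card_erase_of_mem hv, hH e he]
          omega
        · rw [insert_erase hv]
          exact he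
  · push Not at h1
    obtain ⟨s, hs, h1⟩ := h1
    exact Or.inr ⟨s, hs, vd_card hH h1, Or.inl h1⟩

theorem hits_re {r : ℕ} {b : ℕ → ℕ} {A : ℕ → Fin 3 → Finset V} {H : Finset V → Prop}
    (hr : 2 ≤ r) (hH : ∀ e, H e → e.card = r) {T : Finset V}
    (hO : ∀ s, s.card < r → Out r b A H s → ∃ v ∈ s, v ∈ T) {e : Finset V} (he : H e) :
    ∀ j, j ≤ r → Re r b A H j e ∨ ∃ v ∈ e, v ∈ T
  | 0, _ => Or.inl he
  | j + 1, hj => by
    rcases hits_re hr hH hO he j (by omega) with h | h
    · rcases nx_or (t := r - 1 - j) (b := b j) (T := A j 0) (Y := A j 1) (X := A j 2) hr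
        (fun e h => hH e (re_sub j e h)) h with h1 | ⟨s, hs, h1, h2⟩
      · exact Or.inl h1
      · right
        obtain ⟨v, hv, hvT⟩ := hO s h1 ⟨j, by omega, h2⟩
        exact ⟨v, hs hv, hvT⟩
    · exact Or.inr h

end

theorem t_SNDK : S_SNDK := by
  intro V _ b A k
  induction k with
  | zero => intro Φ _ T h; exact h
  | succ k ih =>
    cases k with
    | zero => intro Φ _ T h; exact h
    | succ r =>
      intro Φ hΦ T hT e he
      have h1 : Hits T (fun s => s.card < r + 2 ∧
          (Φ s ∨ Out (r + 2) (b (r + 2)) (A (r + 2)) (fun e => Φ e ∧ e.card = r + 2) s)) := by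
        apply ih _ (fun e h => by have := h.1; omega) T
        intro e he
        exact hT e (Or.inr he)
      rcases lt_or_eq_of_le (hΦ e he) with h | h
      · exact h1 e ⟨h, Or.inl he⟩
      · rcases hits_re (b := b (r + 2)) (A := A (r + 2)) (H := fun e => Φ e ∧ e.card = r + 2)
          (by omega) (fun e h => h.2) (fun s h2 h3 => h1 s ⟨h2, Or.inr h3⟩) (e := e) ⟨he, h⟩
          (r + 2) le_rfl with h2 | h2
        · exact hT e (Or.inl h2)
        · exact h2

theorem t_CRDK : S_CRDK := by
  intro V _ b A k
  induction k with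
  | zero => intro Φ hΦ e h; exact hΦ e h
  | succ k ih =>
    cases k with
    | zero => intro Φ hΦ e h; exact hΦ e h
    | succ r =>
      intro Φ hΦ e he
      rcases he with h | h
      · exact (re_sub _ _ h).2.le
      · exact (ih _ (fun e h => by have := h.1; omega) e h).trans (Nat.le_succ _)

theorem t_DEGK : S_DEGK := by
  classical
  intro k b
  induction k with
  | zero =>
    refine ⟨0, fun V _ A Φ hΦ v S hS => ?_⟩
    rw [Nat.le_zero, card_eq_zero]
    rw [eq_empty_iff_forall_notMem]
    intro e he
    have h1 := hΦ e (hS e he).1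
    rw [Nat.le_zero, card_eq_zero] at h1
    have h2 := (hS e he).2
    rw [h1] at h2
    exact notMem_empty _ h2
  | succ k ih =>
    cases k with
    | zero =>
      refine ⟨1, fun V _ A Φ hΦ v S hS => ?_⟩
      rw [card_le_one]
      have key : ∀ e ∈ S, e = {v} := by
        intro e he
        have h1 := hΦ e (hS e he).1
        have h2 := (hS e he).2
        exact (eq_of_subset_of_card_le (singleton_subset_iff.2 h2) (by simpa using h1)).symm
      intro e he e' he'
      rw [key e he, key e' he']
    | succ r =>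
      obtain ⟨B, hB⟩ := ih
      refine ⟨b (r + 2) (r + 1) + B, fun V _ A Φ hΦ v S hS => ?_⟩
      set H : Finset V → Prop := fun e => Φ e ∧ e.card = r + 2 with hH
      set S₁ := S.filter (fun e => Re (r + 2) (b (r + 2)) (A (r + 2)) H (r + 2) e) with hS₁
      set S₂ := S.filter (fun e => ¬ Re (r + 2) (b (r + 2)) (A (r + 2)) H (r + 2) e) with hS₂
      have h0 : S.card = S₁.card + S₂.card := (card_filter_add_card_filter_not _).symm
      have h2 : S₂.card ≤ B := by
        apply hB V A (fun s => s.card < r + 2 ∧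
            (Φ s ∨ Out (r + 2) (b (r + 2)) (A (r + 2)) H s)) (fun e h => by have := h.1; omega) v
        intro e he
        rw [hS₂, mem_filter] at he
        exact ⟨(hS e he.1).1.resolve_left he.2, (hS e he.1).2⟩
      have h1 : S₁.card ≤ b (r + 2) (r + 1) := by
        by_contra hcon
        push Not at hcon
        obtain ⟨e, he⟩ : S₁.Nonempty := by
          rw [← card_pos]; omega
        obtain ⟨S₃, h3, h4⟩ := exists_subset_card_eq hcon.le
        have he' := (mem_filter.1 he).2
        have hv : v ∈ e := (hS e (mem_filter.1 he).1).2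
        apply he'.2.1 {v} (singleton_subset_iff.2 hv)
        right
        refine ⟨singleton_nonempty v, 0, Nat.zero_le _, ?_, ?_, S₃, h4, fun e' he'' => ?_⟩
        · rw [card_singleton]; omega
        · rw [card_singleton]; omega
        · have h5 := mem_filter.1 (h3 he'')
          refine ⟨singleton_subset_iff.2 (hS e' h5.1).2, ∅, empty_subset _, card_empty,
            disjoint_empty_left _, ?_⟩
          rw [empty_union]
          exact h5.2.1
      omega

end Pool.Agent.J4H94.KS
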